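import Mathlib

namespace Pool.Agent.H.MP_a67235_nt

open WeierstrassCurve WeierstrassCurve.Affine Height

def W : Affine ℚ := ⟨0, 0, 0, 0, -2⟩

instance : WeierstrassCurve.IsElliptic W := ⟨by
  simp [W, Δ, b₂, b₄, b₆, b₈]⟩

def X : W.Point → ℚ
  | .zero => 0
  | .some x _ _ => x

def Y : W.Point → ℚ
  | .zero => 0
  | .some _ y _ => y

lemma eqn {P : W.Point} (h : P ≠ 0) : Y P ^ 2 = X P ^ 3 - 2 := by
  rcases P with _ | ⟨x, y, e⟩
  · exact absurd rfl h
  · have := (equation_iff x y).1 e.1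
    simp only [W] at this
    simp only [X, Y]
    linarith

lemma X_neg (P : W.Point) : X (-P) = X P := by rcases P with _ | ⟨x, y, e⟩ <;> rfl

lemma Y_neg (P : W.Point) : Y (-P) = -Y P := by
  rcases P with _ | ⟨x, y, e⟩
  · exact neg_zero.symm
  · rw [Point.neg_some]; simp [Y, W]

lemma X_inj {P Q : W.Point} (hP : P ≠ 0) (hQ : Q ≠ 0) (h : X P = X Q) : P = Q ∨ P = -Q := by
  rcases P with _ | ⟨x, y, e⟩
  · exact absurd rfl hP
  rcases Q with _ | ⟨x', y', e'⟩
  · exact absurd rfl hQ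
  exact Point.X_eq_iff.1 h

lemma add_ne {P Q : W.Point} (hP : P ≠ 0) (hQ : Q ≠ 0) (h : X P ≠ X Q) :
    X (P + Q) = ((Y P - Y Q) / (X P - X Q)) ^ 2 - X P - X Q ∧
      Y (P + Q) = -((Y P - Y Q) / (X P - X Q) * (X (P + Q) - X P) + Y P) := by
  rcases P with _ | ⟨x, y, e⟩
  · exact absurd rfl hP
  rcases Q with _ | ⟨x', y', e'⟩
  · exact absurd rfl hQ
  have h' : x ≠ x' := h
  rw [Point.add_of_X_ne h']
  simp only [X, Y, addY, slope_of_X_ne h']
  simp [W]

lemma dbl {P : W.Point} (hP : P ≠ 0) (h : Y P ≠ 0) : P + P ≠ 0 ∧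
    X (P + P) = (3 * X P ^ 2 / (2 * Y P)) ^ 2 - 2 * X P ∧
      Y (P + P) = -(3 * X P ^ 2 / (2 * Y P) * (X (P + P) - X P) + Y P) := by
  rcases P with _ | ⟨x, y, e⟩
  · exact absurd rfl hP
  have h' : y ≠ W.negY x y := by
    have : y ≠ 0 := h
    simp only [negY, W]
    intro a
    apply this
    linarith
  rw [Point.add_self_of_Y_ne h']
  refine ⟨Point.some_ne_zero _, ?_⟩
  simp only [X, Y, addY, slope_of_Y_ne rfl h']
  simp only [W, addX, negY, negAddY]
  constructor <;> ring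

def R : W.Point := .some 3 5 (equation_iff_nonsingular.1 (by rw [equation_iff]; norm_num [W]))

lemma Y_ne {P : W.Point} (hP : P ≠ 0) : Y P ≠ 0 := fun h => by
  have e := eqn hP
  rw [h] at e
  have e' : X P ^ 3 = 2 := by linarith
  have := congrArg (padicValRat 2) e'
  rw [padicValRat.pow _ , show padicValRat 2 2 = 1 from padicValRat.self (p := 2) one_lt_two] at this
  omega

lemma X_ne {P : W.Point} (hP : P ≠ 0) : X P ≠ 0 := fun h => by
  have e := eqn hP
  rw [h] at e
  nlinarith [sq_nonneg (Y P)]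

lemma dblX {P : W.Point} (hP : P ≠ 0) :
    X (P + P) * (4 * (X P ^ 3 - 2)) = X P * (X P ^ 3 + 16) := by
  have e := eqn hP
  have y := Y_ne hP
  rw [(dbl hP y).2.1, ← e]
  field_simp
  linear_combination (-32 * X P) * e

lemma pow2 (k : ℕ) : (2 ^ k) • R ≠ 0 ∧ padicNorm 2 (X ((2 ^ k) • R)) = 4 ^ k := by
  induction k with
  | zero =>
    refine ⟨by rw [pow_zero, one_nsmul]; exact Point.some_ne_zero _, ?_⟩
    simpa [R, X] using padicNorm.padicNorm_of_prime_of_ne (p := 2) (q := 3) (by norm_num)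
  | succ k ih =>
    rw [pow_succ, mul_nsmul, two_nsmul]
    refine ⟨(dbl ih.1 (Y_ne ih.1)).1, ?_⟩
    have e := congrArg (padicNorm 2) (dblX ih.1)
    have n2 : padicNorm 2 2 = 2⁻¹ := padicNorm.padicNorm_p_of_prime (p := 2)
    have c : 1 ≤ padicNorm 2 (X ((2 ^ k) • R) ^ 3) := by
      rw [pow_succ, pow_two, padicNorm.mul, padicNorm.mul, ih.2]
      exact one_le_mul_of_one_le_of_one_le (one_le_mul_of_one_le_of_one_le
        (one_le_pow₀ (by norm_num)) (one_le_pow₀ (by norm_num))) (one_le_pow₀ (by norm_num))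
    have k1 : ∀ a : ℚ, padicNorm 2 a < 1 → padicNorm 2 (X ((2 ^ k) • R) ^ 3 + a) =
        padicNorm 2 (X ((2 ^ k) • R) ^ 3) := fun a h => by
      rw [padicNorm.add_eq_max_of_ne (h.trans_le c).ne', max_eq_left (h.le.trans c)]
    have n4 : padicNorm 2 4 = 4⁻¹ := by
      rw [show (4 : ℚ) = 2 * 2 by norm_num, padicNorm.mul, n2]; norm_num
    rw [padicNorm.mul, padicNorm.mul, padicNorm.mul, sub_eq_add_neg,
      k1 _ (by rw [padicNorm.neg, n2]; norm_num),
      k1 _ (by rw [show (16 : ℚ) = 4 * 4 by norm_num, padicNorm.mul, n4]; norm_num), n4, ih.2] at e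
    have := mul_right_cancel₀ (one_pos.trans_le c).ne' ((mul_assoc _ _ _).trans e)
    rw [pow_succ]
    linarith

lemma inj : Function.Injective fun m : ℕ => m • R := by
  refine injective_nsmul_iff_not_isOfFinAddOrder.2 fun h => ?_
  refine Set.infinite_range_of_injective (f := fun k : ℕ => (2 ^ k) • R) (fun a b e => ?_)
    (h.finite_multiples.subset ?_)
  · have := (pow2 a).2
    simp only at e
    rw [e, (pow2 b).2] at this
    exact (pow_right_injective₀ (by norm_num) (by norm_num) this).symm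
  · rintro _ ⟨k, rfl⟩
    exact ⟨_, rfl⟩

lemma ne0 {m : ℕ} (h : 0 < m) : m • R ≠ 0 := fun e => h.ne' (inj (by simpa using e))

lemma Xne {m n : ℕ} (hm : 0 < m) (hn : 0 < n) (h : m ≠ n) : X (m • R) ≠ X (n • R) := fun e => by
  rcases X_inj (ne0 hm) (ne0 hn) e with e | e
  · exact h (inj e)
  · exact ne0 (m := m + n) (by omega) (by rw [add_nsmul, e, neg_add_cancel])

lemma par : ∃ C, ∀ (a c e f g h κ : ℚ), κ ≠ 0 → ![e, f] ≠ 0 → ![g, h] ≠ 0 →
    (a * c) ^ 2 + 8 * (a + c) = κ * (e * g) → 2 * (a + c) * (a * c) - 8 = κ * (e * h + f * g) →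
    (a - c) ^ 2 = κ * (f * h) →
    |logHeight ![e, f] + logHeight ![g, h] - 2 * (logHeight₁ a + logHeight₁ c)| ≤ C := by
  obtain ⟨C, hC⟩ := abs_logHeight_addSubMap_sub_two_mul_logHeight_le W
  obtain ⟨D, hD⟩ := abs_logHeight_sym2_sub_le ℚ
  refine ⟨C + 3 * D, fun a c e f g h κ k0 h1 h2 e1 e2 e3 => ?_⟩
  have a1 := hC ![a * c, a * 1 + 1 * c, 1 * 1]
  have a2 := hD (a := a) (b := 1) (c := c) (d := 1) (by simp) (by simp)
  have a3 := hD h1 h2
  have : (fun i => (addSubMap W i).eval ![a * c, a * 1 + 1 * c, 1 * 1]) =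
      κ • ![e * g, e * h + f * g, f * h] := by
    ext i
    fin_cases i <;> simp [addSubMap, W, b₂, b₄, b₆, b₈] <;> linarith
  rw [this, logHeight_smul_eq_logHeight _ k0] at a1
  rw [logHeight₁_eq_logHeight, logHeight₁_eq_logHeight]
  rw [abs_le] at *
  constructor <;> linarith [a1.1, a1.2, a2.1, a2.2, a3.1, a3.2]

noncomputable def Ht (m : ℕ) : ℝ := logHeight₁ (X (m • R))

lemma par' : ∃ C, ∀ m n, 0 < n → |Ht (m + n + n) + Ht m - 2 * (Ht (m + n) + Ht n)| ≤ C := by
  obtain ⟨C, hC⟩ := par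
  refine ⟨C, fun m n hn => ?_⟩
  have p := ne0 hn
  rcases m.eq_zero_or_pos with rfl | hm
  · have d := dblX p
    have := hC (X (n • R)) (X (n • R)) (X (n • R + n • R)) 1 1 0 (4 * (X (n • R) ^ 3 - 2))
      (by rw [← eqn p]; have := Y_ne p; positivity) (by simp) (by simp) (by linear_combination -d)
      (by ring) (by ring)
    have z : logHeight ![(1 : ℚ), 0] = 0 := by simp
    have z' : Ht 0 = 0 := by rw [Ht, zero_nsmul]; exact logHeight₁_zero
    rw [← logHeight₁_eq_logHeight, z] at this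
    rw [z']
    simpa only [Ht, zero_add, add_nsmul] using this
  · have q := ne0 (m := m + n) (by omega)
    have x := Xne (m := m + n) (by omega) hn (by omega)
    have a := (add_ne q p x).1
    have b := (add_ne q (neg_ne_zero.2 p) (by rwa [X_neg])).1
    rw [X_neg, Y_neg, show (m + n) • R + -(n • R) = m • R by rw [add_nsmul]; abel] at b
    rw [← add_nsmul] at a
    have e1 := eqn p
    have e2 := eqn q
    have x' := sub_ne_zero.2 x
    have := hC (X ((m + n) • R)) (X (n • R)) (X ((m + n + n) • R)) 1 (X (m • R)) 1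
      ((X ((m + n) • R) - X (n • R)) ^ 2) (by positivity) (by simp) (by simp) ?_ ?_ (by ring)
    · rwa [← logHeight₁_eq_logHeight, ← logHeight₁_eq_logHeight] at this
    all_goals
      rw [a, b]
      generalize X ((m + n) • R) = u at *
      generalize Y ((m + n) • R) = v at *
      generalize X (n • R) = s at *
      generalize Y (n • R) = t at *
      field_simp
    · have : v ^ 4 = (u ^ 3 - 2) ^ 2 := by rw [← e2]; ring
      have : t ^ 4 = (s ^ 3 - 2) ^ 2 := by rw [← e1]; ring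
      have : v ^ 2 * t ^ 2 = (u ^ 3 - 2) * (s ^ 3 - 2) := by rw [e1, e2]
      grind
    · linear_combination -2 * e1 - 2 * e2

lemma quad : ∃ N, 0 < N ∧ ∃ B, ∀ m : ℕ, (m : ℝ) ^ 2 / 2 ≤ Ht (N * m) ∧ Ht (N * m) ≤ B * m ^ 2 := by
  obtain ⟨C, hC⟩ := par'
  obtain ⟨N, hN, h⟩ : ∃ N, 0 < N ∧ max C 1 < Ht N := by
    by_contra! h
    refine Set.infinite_range_of_injective (f := fun m : ℕ => X ((m + 1) • R)) (fun a b e => ?_)
      ((NumberField.finite_setOfPred_logHeight₁_le ℚ (max C 1)).subset ?_)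
    · by_contra n
      exact Xne a.succ_pos b.succ_pos (by omega) e
    · rintro _ ⟨m, rfl⟩
      exact h _ m.succ_pos
  have z' : Ht 0 = 0 := by rw [Ht, zero_nsmul]; exact logHeight₁_zero
  have h1 := (le_max_left _ _).trans_lt h
  have h2 := (le_max_right _ _).trans_lt h
  have d : ∀ m : ℕ, Ht N * (m + 1) ≤ Ht (N * (m + 1)) - Ht (N * m) ∧
      Ht (N * (m + 1)) - Ht (N * m) ≤ Ht N * (3 * m + 1) := fun m => by
    induction m with
    | zero => simp [z']
    | succ m ih =>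
      have := abs_le.1 (hC (N * m) N hN)
      simp only [mul_add, mul_one] at *
      push_cast
      constructor <;> linarith [this.1, this.2, ih.1, ih.2]
  have e : ∀ m : ℕ, Ht N * (m ^ 2 / 2) ≤ Ht (N * m) ∧ Ht (N * m) ≤ 2 * Ht N * m ^ 2 := fun m => by
    induction m with
    | zero => simp [z']
    | succ m ih =>
      have := d m
      have : 0 ≤ Ht N * m := by positivity
      push_cast
      constructor <;> nlinarith
  exact ⟨N, hN, 2 * Ht N, fun m => ⟨le_trans (le_mul_of_one_le_left (by positivity) h2.le) (e m).1,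
    (e m).2⟩⟩

end Pool.Agent.H.MP_a67235_nt
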