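import Mathlib

namespace Pool.Agent.H.MP_a67235_nt

open Height Filter Finset MvPolynomial

noncomputable def L : ℝ := totalWeight ℚ * Real.log 2

lemma L0 : 0 ≤ L := mul_nonneg (Nat.cast_nonneg _) (Real.log_nonneg one_le_two)

lemma h_add (x y : ℚ) : logHeight₁ (x + y) ≤ L + logHeight₁ x + logHeight₁ y :=
  logHeight₁_add_le x y

lemma horner (x : ℚ) (j : ℕ) : ∀ c : ℕ → ℚ, logHeight₁ (∑ i ∈ range (j + 1), c i * x ^ i) ≤
    j * logHeight₁ x + ∑ i ∈ range (j + 1), (logHeight₁ (c i) + L) := by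
  induction j with
  | zero => intro c; simp [L0]
  | succ j ih =>
    intro c
    rw [sum_range_succ' _ (j + 1), sum_range_succ' _ (j + 1)]
    simp only [pow_succ, ← mul_assoc, ← sum_mul, pow_zero, mul_one]
    have a := h_add ((∑ i ∈ range (j + 1), c (i + 1) * x ^ i) * x) (c 0)
    have b := logHeight₁_mul_le (∑ i ∈ range (j + 1), c (i + 1) * x ^ i) x
    have := ih fun i => c (i + 1)
    push_cast
    linarith

lemma root {x : ℚ} {D : ℕ} {c : ℕ → ℚ} (h : c D ≠ 0) (e : ∑ i ∈ range (D + 1), c i * x ^ i = 0) :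
    logHeight₁ x ≤ ∑ i ∈ range (D + 1), (logHeight₁ (c i) + L) := by
  rcases D with _ | j
  · exact absurd (by simpa using e) h
  rw [sum_range_succ] at e ⊢
  have e' : x ^ (j + 1) = -(∑ i ∈ range (j + 1), c i * x ^ i) * (c (j + 1))⁻¹ := by
    field_simp; linarith
  have a := logHeight₁_pow x (j + 1)
  have b := logHeight₁_mul_le (-(∑ i ∈ range (j + 1), c i * x ^ i)) (c (j + 1))⁻¹
  rw [← e', a, logHeight₁_neg, logHeight₁_inv] at b
  have := horner x j c
  push_cast at b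
  linarith [L0]

abbrev K := Germ (hyperfilter ℕ : Filter ℕ) ℚ

def Bd (g : ℕ → ℝ) (f : ℕ → ℚ) : Prop := ∃ C, ∀ n, logHeight₁ (f n) ≤ C * g n

def Big (g : ℕ → ℝ) (f : ℕ → ℚ) : Prop := ∀ C, ∀ᶠ n in atTop, C * g n < logHeight₁ (f n)

variable {g : ℕ → ℝ}

lemma Bd.add (hg : ∀ n, 1 ≤ g n) {a b : ℕ → ℚ} (ha : Bd g a) (hb : Bd g b) :
    Bd g fun n => a n + b n := by
  obtain ⟨A, hA⟩ := ha
  obtain ⟨B, hB⟩ := hb
  exact ⟨L + A + B, fun n => by nlinarith [h_add (a n) (b n), hA n, hB n, hg n, L0]⟩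

lemma Bd.mul {a b : ℕ → ℚ} (ha : Bd g a) (hb : Bd g b) : Bd g fun n => a n * b n := by
  obtain ⟨A, hA⟩ := ha
  obtain ⟨B, hB⟩ := hb
  exact ⟨A + B, fun n => by linarith [logHeight₁_mul_le (a n) (b n), hA n, hB n]⟩

lemma Bd.const (hg : ∀ n, 1 ≤ g n) (q : ℚ) : Bd g fun _ => q :=
  ⟨logHeight₁ q, fun n => le_mul_of_one_le_right (zero_le_logHeight₁ _) (hg n)⟩

lemma Bd.inv {a : ℕ → ℚ} (ha : Bd g a) : Bd g fun n => (a n)⁻¹ := by
  simpa only [Bd, logHeight₁_inv] using ha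

lemma Bd.neg {a : ℕ → ℚ} (ha : Bd g a) : Bd g fun n => -a n := by
  simpa only [Bd, logHeight₁_neg] using ha

lemma cst (q : ℚ) : algebraMap ℚ K q = ((fun _ => q : ℕ → ℚ) : K) :=
  DFunLike.congr_fun (RingHom.ext_rat (algebraMap ℚ K)
    ((Germ.coeRingHom _).comp (Pi.constRingHom ℕ ℚ))) q

def S (hg : ∀ n, 1 ≤ g n) : Subalgebra ℚ K where
  carrier := {ξ | ∃ f : ℕ → ℚ, Bd g f ∧ ξ = f}
  mul_mem' := by rintro _ _ ⟨a, ha, rfl⟩ ⟨b, hb, rfl⟩; exact ⟨_, ha.mul hb, rfl⟩
  add_mem' := by rintro _ _ ⟨a, ha, rfl⟩ ⟨b, hb, rfl⟩; exact ⟨_, ha.add hg hb, rfl⟩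
  algebraMap_mem' q := ⟨_, .const hg q, cst q⟩

open AlgebraicIndependent in
lemma notcl (hg : ∀ n, 1 ≤ g n) {f : ℕ → ℚ} (hf : Big g f) {T : Set K} (hT : T ⊆ S hg) :
    (f : K) ∉ (matroid ℚ K).closure T := by
  rw [matroid_closure_eq]
  rintro ⟨p, p0, hp⟩
  have : ∀ i, ∃ c : ℕ → ℚ, Bd g c ∧ (p.coeff i : K) = c := fun i =>
    Algebra.adjoin_le hT (p.coeff i).2
  choose c hc ec using this
  choose C hC using hc
  rw [Polynomial.aeval_eq_sum_range] at hp
  have e1 : ((fun n => ∑ i ∈ range (p.natDegree + 1), c i n * f n ^ i : ℕ → ℚ) : K) =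
      ((fun _ => 0 : ℕ → ℚ) : K) := by
    refine Eq.trans ?_ hp
    have := map_sum (Germ.coeRingHom (hyperfilter ℕ : Filter ℕ)) (fun i n => c i n * f n ^ i)
      (range (p.natDegree + 1))
    rw [Finset.sum_fn] at this
    simp only [Germ.coe_coeRingHom] at this
    refine Eq.trans (by simp only [Finset.sum_apply]) (this.trans (sum_congr rfl fun i _ => ?_))
    rw [Subalgebra.smul_def, ec, smul_eq_mul]
    rfl
  have e2 : ¬ (c p.natDegree : K) = ((fun _ => 0 : ℕ → ℚ) : K) := fun h =>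
    Polynomial.leadingCoeff_ne_zero.2 p0 (Subtype.ext ((ec _).trans h))
  rw [Germ.coe_eq] at e1 e2
  obtain ⟨n, h1, h2, h3⟩ := (e1.and ((Ultrafilter.eventually_not.2 e2).and
    ((hf (∑ i ∈ range (p.natDegree + 1), (C i + L))).filter_mono
      Nat.hyperfilter_le_atTop))).exists
  refine h3.not_ge ((root (c := fun i => c i n) h2 h1).trans ?_)
  rw [sum_mul]
  exact sum_le_sum fun i _ => by nlinarith [hC i n, hg n, L0]

lemma aev {ι : Type} (U : ι → ℕ → ℚ) (G : MvPolynomial ι ℚ) :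
    aeval (fun i => (U i : K)) G = ((fun n => eval (fun i => U i n) G : ℕ → ℚ) : K) := by
  induction G using MvPolynomial.induction_on with
  | C a => simp only [aeval_C, eval_C, cst]
  | add p q hp hq => simp only [map_add, hp, hq]; rfl
  | mul_X p i hp => simp only [map_mul, hp, aeval_X, eval_X]; rfl

open AlgebraicIndependent in
lemma dense {g₁ g₂ : ℕ → ℝ} (h₁ : ∀ n, 1 ≤ g₁ n) (h₂ : ∀ n, 1 ≤ g₂ n) {s : ℕ → ℚ}
    {U : Fin 3 → ℕ → ℚ} (a0 : Big 1 s) (a1 : Bd g₁ s) (a2 : Big g₁ (U 0)) (a3 : Bd g₂ s)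
    (a4 : Bd g₂ (U 0)) (a5 : Big g₂ (U 1)) {p q : MvPolynomial (Fin 3) ℚ}
    (hq : ∀ n, eval (fun i => U i n) q ≠ 0)
    (e : ∀ n, s n * eval (fun i => U i n) q = eval (fun i => U i n) p)
    {G : MvPolynomial (Fin 3) ℚ} (hG : G ≠ 0) (m : ℕ) : ∃ n ≥ m, eval (fun i => U i n) G ≠ 0 := by
  have ins : ∀ {I : Set K} {x : K}, (matroid ℚ K).Indep I → x ∉ (matroid ℚ K).closure I →
      x ∉ I ∧ (matroid ℚ K).Indep (insert x I) := fun {I x} hI hx =>
    have := fun h => hx ((matroid ℚ K).subset_closure I (by simp) h)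
    ⟨this, (hI.insert_indep_iff_of_notMem this).2 ⟨by simp, hx⟩⟩
  have i0 := ins (matroid ℚ K).empty_indep (notcl (g := 1) (fun _ => le_rfl) a0 (by simp))
  have i1 := ins i0.2 (notcl h₁ a2 (by rintro _ (rfl | h); exacts [⟨_, a1, rfl⟩, h.elim]))
  have i2 := ins i1.2 (notcl h₂ a5 (by
    rintro _ (rfl | rfl | h); exacts [⟨_, a4, rfl⟩, ⟨_, a3, rfl⟩, h.elim]))
  simp only [Set.mem_insert_iff, not_or, Set.mem_empty_iff_false, or_false] at i1 i2
  have j1 := i2.2.notMem_closure_sdiff_of_mem (e := (s : K)) (by simp)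
  have j2 : insert (U 1 : K) (insert (U 0 : K) (insert (s : K) (∅ : Set K))) \ {(s : K)} =
      {(U 1 : K), (U 0 : K)} := by
    ext x
    simp only [Set.mem_sdiff, Set.mem_insert_iff, Set.mem_empty_iff_false, Set.mem_singleton_iff]
    have := i1.1
    have := i2.1
    grind
  rw [j2] at j1
  have rg : Set.range (fun i => (U i : K)) = insert (U 2 : K) {(U 1 : K), (U 0 : K)} := by
    ext x
    simp only [Set.mem_range, Fin.exists_fin_succ, Set.mem_insert_iff, Set.mem_singleton_iff]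
    simp [eq_comm]
    tauto
  have j3 : (s : K) ∈ (matroid ℚ K).closure (insert (U 2 : K) {(U 1 : K), (U 0 : K)}) := by
    rw [matroid_closure_eq, ← rg]
    have mem : ∀ G : MvPolynomial (Fin 3) ℚ, aeval (fun i => (U i : K)) G ∈
        Algebra.adjoin ℚ (Set.range fun i => (U i : K)) := fun G => by
      rw [Algebra.adjoin_range_eq_range_aeval]; exact ⟨G, rfl⟩
    refine ⟨Polynomial.C ⟨_, mem q⟩ * Polynomial.X - Polynomial.C ⟨_, mem p⟩, fun h => ?_, ?_⟩
    · have := congrArg Subtype.val (congrArg (fun r => Polynomial.coeff r 1) h)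
      simp only [Polynomial.coeff_sub, Polynomial.coeff_C_mul, Polynomial.coeff_X_one, mul_one,
        Polynomial.coeff_C_succ, sub_zero, Polynomial.coeff_zero, aev] at this
      exact (Germ.coe_eq.1 this).exists.elim hq
    · simp only [map_sub, map_mul, Polynomial.aeval_C, Polynomial.aeval_X, Subalgebra.algebraMap_def,
        Algebra.algebraMap_self, RingHom.id_apply, aev, sub_eq_zero]
      exact Germ.coe_eq.2 (.of_forall fun n => (mul_comm _ _).trans (e n))
  have i3 := ins (x := (U 2 : K)) (i2.2.subset (j2 ▸ Set.sdiff_subset)) fun h =>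
    j1 ((matroid ℚ K).closure_insert_eq_of_mem_closure h ▸ j3)
  have inj : Function.Injective fun i => (U i : K) := by
    have a := i3.1
    have b := i2.1.1
    simp only [Set.mem_insert_iff, Set.mem_singleton_iff, not_or] at a
    intro i j h
    fin_cases i <;> fin_cases j <;>
      first | rfl | exact absurd h b | exact absurd h.symm b | exact absurd h a.1 |
        exact absurd h.symm a.1 | exact absurd h a.2 | exact absurd h.symm a.2
  have ai : AlgebraicIndependent ℚ fun i => (U i : K) :=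
    (algebraicIndependent_subtype_range inj).1 (matroid_indep_iff.1 (rg ▸ i3.2))
  have ne : ¬ aeval (fun i => (U i : K)) G = 0 := fun h => hG (algebraicIndependent_iff.1 ai G h)
  rw [aev] at ne
  obtain ⟨n, h1, h2⟩ := ((Ultrafilter.eventually_not.2 (mt Germ.coe_eq.2 ne)).and
    ((eventually_ge_atTop m).filter_mono Nat.hyperfilter_le_atTop)).exists
  exact ⟨n, h2, h1⟩

end Pool.Agent.H.MP_a67235_nt
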