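import Pool.Agent.H.MP_a67235_nt.A
import Pool.Agent.H.MP_a67235_nt.B

namespace Pool.Agent.H.MP_a67235_nt

open Height Filter Finset MvPolynomial

def Rt (P : ℕ → Fin 4 → ℚ) (g : ℕ → ℚ) : Prop :=
  ∃ d, ∃ p q : MvPolynomial (Fin 4) ℚ, p.IsHomogeneous d ∧ q.IsHomogeneous d ∧
    ∀ n, eval (P n) q ≠ 0 ∧ g n * eval (P n) q = eval (P n) p

section
variable {P : ℕ → Fin 4 → ℚ} {f g : ℕ → ℚ}

lemma Rt.congr (h : Rt P f) (e : ∀ n, f n = g n) : Rt P g := funext e ▸ h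

lemma Rt.const (c : ℚ) : Rt P fun _ => c :=
  ⟨0, C c, 1, isHomogeneous_C _ _, isHomogeneous_one _ _, fun n => by simp⟩

lemma Rt.coord (h : ∀ n, P n 0 = 1) (i : Fin 4) : Rt P fun n => P n i :=
  ⟨1, .X i, .X 0, isHomogeneous_X _ _, isHomogeneous_X _ _, fun n => by simp [h]⟩

lemma Rt.add (hf : Rt P f) (hg : Rt P g) : Rt P fun n => f n + g n := by
  obtain ⟨d, p, q, a, b, c⟩ := hf
  obtain ⟨d', p', q', a', b', c'⟩ := hg
  refine ⟨d + d', p * q' + q * p', q * q', (a.mul b').add (b.mul a'), b.mul b', fun n => ?_⟩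
  simp only [map_mul, map_add, ← (c n).2, ← (c' n).2]
  exact ⟨mul_ne_zero (c n).1 (c' n).1, by ring⟩

lemma Rt.mul (hf : Rt P f) (hg : Rt P g) : Rt P fun n => f n * g n := by
  obtain ⟨d, p, q, a, b, c⟩ := hf
  obtain ⟨d', p', q', a', b', c'⟩ := hg
  refine ⟨d + d', p * p', q * q', a.mul a', b.mul b', fun n => ?_⟩
  simp only [map_mul, ← (c n).2, ← (c' n).2]
  exact ⟨mul_ne_zero (c n).1 (c' n).1, by ring⟩

lemma Rt.sub (hf : Rt P f) (hg : Rt P g) : Rt P fun n => f n - g n :=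
  (hf.add ((Rt.const (-1)).mul hg)).congr fun n => by ring

lemma Rt.div (hf : Rt P f) (hg : Rt P g) (h : ∀ n, g n ≠ 0) : Rt P fun n => f n / g n := by
  obtain ⟨d, p, q, a, b, c⟩ := hg
  refine (hf.mul (g := fun n => (g n)⁻¹) ⟨d, q, p, b, a, fun n => ?_⟩).congr fun n =>
    (div_eq_mul_inv _ _).symm
  rw [← (c n).2]
  exact ⟨mul_ne_zero (h n) (c n).1, inv_mul_cancel_left₀ (h n) _⟩

lemma Rt.cube (hf : Rt P f) : Rt P fun n => f n ^ 3 :=
  ((hf.mul hf).mul hf).congr fun n => by ring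
end

structure Sq where
  x : ℕ → ℚ
  y : ℕ → ℚ
  B : ℝ
  eq : ∀ m, 0 < m → y m ^ 2 = x m ^ 3 - 2
  y0 : ∀ m, 0 < m → y m ≠ 0
  x0 : ∀ m, 0 < m → x m ≠ 0
  ne : ∀ m n, 0 < m → 0 < n → m ≠ n → x m ≠ x n
  ad : ∀ m n, 0 < m → 0 < n → m ≠ n → x (m + n) = ((y m - y n) / (x m - x n)) ^ 2 - x m - x n ∧
    y (m + n) = -((y m - y n) / (x m - x n) * (x (m + n) - x m) + y m)
  db : ∀ m, 0 < m → x (m + m) = (3 * x m ^ 2 / (2 * y m)) ^ 2 - 2 * x m ∧
    y (m + m) = -(3 * x m ^ 2 / (2 * y m) * (x (m + m) - x m) + y m)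
  ht : ∀ m : ℕ, (m : ℝ) ^ 2 / 2 ≤ logHeight₁ (x m) ∧ logHeight₁ (x m) ≤ B * m ^ 2

lemma exSq : Nonempty Sq := by
  obtain ⟨N, hN, B, hB⟩ := quad
  have z : ∀ m, 0 < m → (N * m) • R ≠ 0 := fun m h => ne0 (by positivity)
  have w : ∀ m n, 0 < m → 0 < n → m ≠ n → X ((N * m) • R) ≠ X ((N * n) • R) := fun m n a b c =>
    Xne (by positivity) (by positivity) fun e => c (Nat.eq_of_mul_eq_mul_left hN e)
  exact ⟨⟨fun m => X ((N * m) • R), fun m => Y ((N * m) • R), B, fun m h => eqn (z m h),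
    fun m h => Y_ne (z m h), fun m h => X_ne (z m h), w, fun m n a b c => by
      simp only [mul_add, add_nsmul]; exact add_ne (z m a) (z n b) (w m n a b c),
    fun m a => by simp only [mul_add, add_nsmul]; exact (dbl (z m a) (Y_ne (z m a))).2, hB⟩⟩

def γ : ℕ → ℕ
  | 0 => 3
  | n + 1 => γ n + (n + 2)

lemma γ_eq (n : ℕ) : 2 * γ n = n ^ 2 + 3 * n + 6 := by
  induction n with
  | zero => rfl
  | succ n ih => rw [γ]; nlinarith

def a (n : ℕ) : ℕ := 2 ^ n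
def b (n : ℕ) : ℕ := 2 ^ n * (n + 2)
def c (n : ℕ) : ℕ := 2 ^ n * γ n

lemma a0 (n : ℕ) : 0 < a n := by unfold a; positivity
lemma ab (n : ℕ) : a n < b n := by have := a0 n; unfold a b at *; nlinarith
lemma bc (n : ℕ) : b n < c n := Nat.mul_lt_mul_of_pos_left (by nlinarith [γ_eq n]) (a0 n)
lemma b0 (n : ℕ) : 0 < b n := (a0 n).trans (ab n)
lemma c0 (n : ℕ) : 0 < c n := (b0 n).trans (bc n)

namespace Sq
variable (s : Sq)

lemma c3 {m n : ℕ} (hm : 0 < m) (hn : 0 < n) (h : m ≠ n) : s.x m ^ 3 - s.x n ^ 3 ≠ 0 := fun e =>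
  s.ne m n hm hn h ((Odd.strictMono_pow (by decide : Odd 3)).injective (sub_eq_zero.1 e))

lemma ys {m n : ℕ} (hm : 0 < m) (hn : 0 < n) (h : m ≠ n) :
    s.y m - s.y n ≠ 0 ∧ s.y m + s.y n ≠ 0 :=
  mul_ne_zero_iff.1 fun e => s.c3 hm hn h (by linarith [s.eq m hm, s.eq n hn])

def U : Fin 3 → ℕ → ℚ :=
  ![fun n => s.x (b n) / s.x (a n), fun n => s.x (c n) / s.x (a n),
    fun n => (s.y (c n) - s.y (a n)) / (s.y (b n) - s.y (a n))]

def P (n : ℕ) : Fin 4 → ℚ := ![1, s.U 0 n, s.U 1 n, s.U 2 n]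

def Good (m : ℕ → ℕ) : Prop := (∀ n, 0 < m n) ∧ Rt s.P (fun n => s.x (m n) / s.x (a n)) ∧
  Rt s.P fun n => s.y (m n) / s.y (a n)

lemma r0 : Rt s.P fun n => s.x (b n) / s.x (a n) := Rt.coord (P := s.P) (fun _ => rfl) 1
lemma r1 : Rt s.P fun n => s.x (c n) / s.x (a n) := Rt.coord (P := s.P) (fun _ => rfl) 2
lemma r2 : Rt s.P fun n => (s.y (c n) - s.y (a n)) / (s.y (b n) - s.y (a n)) :=
  Rt.coord (P := s.P) (fun _ => rfl) 3

lemma cu {m : ℕ} (hm : 0 < m) (n : ℕ) :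
    (s.x m / s.x (a n)) ^ 3 - 1 = (s.y m - s.y (a n)) * (s.y m + s.y (a n)) / s.x (a n) ^ 3 := by
  have := s.x0 _ (a0 n)
  field_simp
  linarith [s.eq m hm, s.eq _ (a0 n)]

lemma ga : s.Good a := ⟨a0, (Rt.const 1).congr fun n => (div_self (s.x0 _ (a0 n))).symm,
  (Rt.const 1).congr fun n => (div_self (s.y0 _ (a0 n))).symm⟩

lemma gb : s.Good b := by
  refine ⟨b0, s.r0, ?_⟩
  have h1 := fun n => s.ys (b0 n) (a0 n) (ab n).ne'
  have h2 := fun n => s.ys (c0 n) (a0 n) ((ab n).trans (bc n)).ne'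
  have h3 := fun n => s.ys (c0 n) (b0 n) (bc n).ne'
  have x := fun n => s.x0 _ (a0 n)
  have y := fun n => s.y0 _ (a0 n)
  have ρ : Rt s.P fun n => (s.y (c n) - s.y (a n)) * (s.y (c n) + s.y (a n)) /
      ((s.y (b n) - s.y (a n)) * (s.y (b n) + s.y (a n))) :=
    ((s.r1.cube.sub (.const 1)).div (s.r0.cube.sub (.const 1)) fun n => by
      rw [s.cu (b0 n)]
      exact div_ne_zero (mul_ne_zero (h1 n).1 (h1 n).2) (pow_ne_zero _ (x n))).congr fun n => by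
      rw [s.cu (b0 n), s.cu (c0 n), div_div_div_cancel_right₀ (pow_ne_zero _ (x n))]
  have e : ∀ n, (s.y (c n) - s.y (a n)) / (s.y (b n) - s.y (a n)) *
      ((s.y (c n) - s.y (a n)) / (s.y (b n) - s.y (a n))) -
      (s.y (c n) - s.y (a n)) * (s.y (c n) + s.y (a n)) /
      ((s.y (b n) - s.y (a n)) * (s.y (b n) + s.y (a n))) =
      2 * s.y (a n) * (s.y (c n) - s.y (a n)) * (s.y (c n) - s.y (b n)) /
        ((s.y (b n) - s.y (a n)) ^ 2 * (s.y (b n) + s.y (a n))) := fun n => by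
    have := (h1 n).1
    have := (h1 n).2
    field_simp
    ring
  refine ((((s.r2.mul s.r2).sub ((Rt.const 2).mul s.r2)).add ρ).div ((s.r2.mul s.r2).sub ρ)
    fun n => ?_).congr fun n => ?_
  all_goals
    have := (h1 n).1
    have := (h1 n).2
    have := (h2 n).1
    have := (h3 n).1
    have := y n
    rw [e]
  · positivity
  · field_simp
    ring

lemma gc : s.Good c := ⟨c0, s.r1, ((Rt.const 1).add (s.r2.mul (s.gb.2.2.sub (.const 1)))).congr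
  fun n => by
    have := (s.ys (b0 n) (a0 n) (ab n).ne').1
    have := s.y0 _ (a0 n)
    field_simp
    ring⟩

lemma rκ : Rt s.P fun n => s.y (a n) ^ 2 / s.x (a n) ^ 3 := by
  have e : ∀ n, s.y (b n) / s.y (a n) * (s.y (b n) / s.y (a n)) - 1 =
      (s.y (b n) - s.y (a n)) * (s.y (b n) + s.y (a n)) / s.y (a n) ^ 2 := fun n => by
    have := s.y0 _ (a0 n)
    field_simp
    ring
  refine ((s.r0.cube.sub (.const 1)).div ((s.gb.2.2.mul s.gb.2.2).sub (.const 1))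
    fun n => ?_).congr fun n => ?_
  all_goals
    have := (s.ys (b0 n) (a0 n) (ab n).ne').1
    have := (s.ys (b0 n) (a0 n) (ab n).ne').2
    have := s.y0 _ (a0 n)
    have := s.x0 _ (a0 n)
    rw [e]
  · positivity
  · rw [s.cu (b0 n)]
    field_simp

lemma rs : Rt s.P fun n => s.x (a n) ^ 3 := by
  have e : ∀ n, s.y (a n) ^ 2 / s.x (a n) ^ 3 - 1 = -2 / s.x (a n) ^ 3 := fun n => by
    have := s.x0 _ (a0 n)
    rw [s.eq _ (a0 n)]
    field_simp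
    ring
  refine ((Rt.const (-2)).div (s.rκ.sub (.const 1)) fun n => ?_).congr fun n => ?_
  all_goals
    have := s.x0 _ (a0 n)
    rw [e]
  · exact div_ne_zero (by norm_num) (pow_ne_zero _ this)
  · field_simp

variable {s}

lemma Good.add {m k : ℕ → ℕ} (hm : s.Good m) (hk : s.Good k) (h : ∀ n, m n ≠ k n) :
    s.Good fun n => m n + k n := by
  have x := fun n => s.x0 _ (a0 n)
  have y := fun n => s.y0 _ (a0 n)
  have d := fun n => sub_ne_zero.2 (s.ne _ _ (hm.1 n) (hk.1 n) (h n))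
  have μ : Rt s.P fun n => (s.y (m n) - s.y (k n)) / (s.x (m n) - s.x (k n)) *
      (s.x (a n) / s.y (a n)) :=
    ((hm.2.2.sub hk.2.2).div (hm.2.1.sub hk.2.1) fun n => by
      rw [← sub_div]; exact div_ne_zero (d n) (x n)).congr fun n => by
      have := x n; have := y n; have := d n
      rw [← sub_div, ← sub_div]
      field_simp
  have u : Rt s.P fun n => s.x (m n + k n) / s.x (a n) :=
    (((s.rκ.mul (μ.mul μ)).sub hm.2.1).sub hk.2.1).congr fun n => by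
      have := x n; have := y n
      rw [(s.ad _ _ (hm.1 n) (hk.1 n) (h n)).1]
      generalize (s.y (m n) - s.y (k n)) / (s.x (m n) - s.x (k n)) = l
      field_simp
  refine ⟨fun n => Nat.add_pos_left (hm.1 n) _, u,
    ((Rt.const 0).sub ((μ.mul (u.sub hm.2.1)).add hm.2.2)).congr fun n => ?_⟩
  have := x n; have := y n
  rw [(s.ad _ _ (hm.1 n) (hk.1 n) (h n)).2]
  generalize (s.y (m n) - s.y (k n)) / (s.x (m n) - s.x (k n)) = l
  field_simp
  ring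

lemma Good.dbl {m : ℕ → ℕ} (hm : s.Good m) : s.Good fun n => m n + m n := by
  have x := fun n => s.x0 _ (a0 n)
  have y := fun n => s.y0 _ (a0 n)
  have d := fun n => s.y0 _ (hm.1 n)
  have μ : Rt s.P fun n => 3 * s.x (m n) ^ 2 / (2 * s.y (m n)) * (s.x (a n) / s.y (a n)) :=
    ((((Rt.const (3 / 2)).mul (hm.2.1.mul hm.2.1)).div hm.2.2 fun n => div_ne_zero (d n) (y n)).div
      s.rκ fun n => div_ne_zero (pow_ne_zero _ (y n)) (pow_ne_zero _ (x n))).congr fun n => by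
      have := x n; have := y n; have := d n
      field_simp
  have u : Rt s.P fun n => s.x (m n + m n) / s.x (a n) :=
    (((s.rκ.mul (μ.mul μ)).sub hm.2.1).sub hm.2.1).congr fun n => by
      have := x n; have := y n
      rw [(s.db _ (hm.1 n)).1]
      generalize 3 * s.x (m n) ^ 2 / (2 * s.y (m n)) = l
      field_simp
      ring
  refine ⟨fun n => Nat.add_pos_left (hm.1 n) _, u,
    ((Rt.const 0).sub ((μ.mul (u.sub hm.2.1)).add hm.2.2)).congr fun n => ?_⟩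
  have := x n; have := y n
  rw [(s.db _ (hm.1 n)).2]
  generalize 3 * s.x (m n) ^ 2 / (2 * s.y (m n)) = l
  field_simp
  ring

variable (s)

lemma step : ∃ d, ∃ F : Fin 4 → MvPolynomial (Fin 4) ℚ, (∀ i, (F i).IsHomogeneous d) ∧
    ∀ n, ∃ t, t ≠ 0 ∧ ∀ i, eval (s.P n) (F i) = t * s.P (n + 1) i := by
  have A : s.Good fun n => a (n + 1) := by
    simpa only [a, pow_succ, mul_two] using s.ga.dbl
  have B : s.Good fun n => b (n + 1) := by
    have : (fun n => b (n + 1)) = fun n => a n + b n + (a n + b n) := by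
      funext n; unfold a b; ring
    exact this ▸ (s.ga.add s.gb fun n => (ab n).ne).dbl
  have C : s.Good fun n => c (n + 1) := by
    have : (fun n => c (n + 1)) = fun n => b n + c n + (b n + c n) := by
      funext n; unfold b c; rw [γ]; ring
    exact this ▸ (s.gb.add s.gc fun n => (bc n).ne).dbl
  have x := fun n => s.x0 _ (a0 n)
  have y := fun n => s.y0 _ (a0 n)
  obtain ⟨d₁, p₁, q₁, a₁, b₁, c₁⟩ : Rt s.P fun n => s.U 0 (n + 1) :=
    (B.2.1.div A.2.1 fun n => div_ne_zero (x _) (x n)).congr fun n =>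
      div_div_div_cancel_right₀ (x n) _ _
  obtain ⟨d₂, p₂, q₂, a₂, b₂, c₂⟩ : Rt s.P fun n => s.U 1 (n + 1) :=
    (C.2.1.div A.2.1 fun n => div_ne_zero (x _) (x n)).congr fun n =>
      div_div_div_cancel_right₀ (x n) _ _
  obtain ⟨d₃, p₃, q₃, a₃, b₃, c₃⟩ : Rt s.P fun n => s.U 2 (n + 1) :=
    ((C.2.2.sub A.2.2).div (B.2.2.sub A.2.2) fun n => by
      rw [← sub_div]
      exact div_ne_zero (s.ys (b0 _) (a0 _) (ab _).ne').1 (y n)).congr fun n => by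
      rw [← sub_div, ← sub_div]
      exact div_div_div_cancel_right₀ (y n) _ _
  refine ⟨d₁ + d₂ + d₃, ![q₁ * q₂ * q₃, p₁ * q₂ * q₃, q₁ * p₂ * q₃, q₁ * q₂ * p₃], fun i => ?_,
    fun n => ⟨_, mul_ne_zero (mul_ne_zero (c₁ n).1 (c₂ n).1) (c₃ n).1, fun i => ?_⟩⟩
  · fin_cases i
    exacts [(b₁.mul b₂).mul b₃, (a₁.mul b₂).mul b₃, (b₁.mul a₂).mul b₃, (b₁.mul b₂).mul a₃]
  · have e₁ := (c₁ n).2
    have e₂ := (c₂ n).2
    have e₃ := (c₃ n).2
    generalize s.P n = v at *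
    fin_cases i <;> simp [P, ← e₁, ← e₂, ← e₃] <;> ring

lemma bx {g : ℕ → ℝ} {m : ℕ → ℕ} {C : ℝ} (h : ∀ n, (m n : ℝ) ^ 2 ≤ C * g n) :
    Bd g fun n => s.x (m n) := ⟨|s.B| * C, fun n => by
  have := mul_le_mul (le_abs_self s.B) (h n) (sq_nonneg _) (abs_nonneg _)
  linarith [(s.ht (m n)).2]⟩

lemma bY {g : ℕ → ℝ} (hg : ∀ n, 1 ≤ g n) {m : ℕ → ℕ} (hm : ∀ n, 0 < m n)
    (h : Bd g fun n => s.x (m n)) : Bd g fun n => s.y (m n) := by
  obtain ⟨C, hC⟩ := ((h.mul h).mul h).add hg (.const hg (-2))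
  refine ⟨C, fun n => le_trans ?_ (hC n)⟩
  beta_reduce
  rw [show s.x (m n) * s.x (m n) * s.x (m n) + -2 = s.y (m n) ^ 2 by rw [s.eq _ (hm n)]; ring,
    logHeight₁_pow]
  push_cast
  linarith [zero_le_logHeight₁ (s.y (m n))]

lemma lo (m n : ℕ) : (m : ℝ) ^ 2 / 2 - |s.B| * 4 ^ n ≤ logHeight₁ (s.x m / s.x (a n)) := by
  have h := logHeight₁_mul_le (s.x m / s.x (a n)) (s.x (a n))
  rw [div_mul_cancel₀ _ (s.x0 _ (a0 n))] at h
  have e : ((a n : ℕ) : ℝ) ^ 2 = 4 ^ n := by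
    unfold a; push_cast; rw [← pow_mul, mul_comm, pow_mul]; norm_num
  have := (s.ht (a n)).2
  rw [e] at this
  have := mul_le_mul_of_nonneg_right (le_abs_self s.B) (by positivity : (0 : ℝ) ≤ 4 ^ n)
  linarith [(s.ht m).1]

lemma sqs (n : ℕ) : ((a n : ℕ) : ℝ) ^ 2 = 4 ^ n ∧ ((b n : ℕ) : ℝ) ^ 2 = 4 ^ n * (n + 2) ^ 2 ∧
    4 ^ n * ((n : ℝ) + 1) ^ 4 / 4 ≤ ((c n : ℕ) : ℝ) ^ 2 ∧
    ((c n : ℕ) : ℝ) ^ 2 ≤ 9 * (4 ^ n * ((n : ℝ) + 1) ^ 4) := by
  have e : ((2 : ℝ) ^ n) ^ 2 = 4 ^ n := by rw [← pow_mul, mul_comm, pow_mul]; norm_num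
  have g : (2 * γ n : ℝ) = n ^ 2 + 3 * n + 6 := by exact_mod_cast γ_eq n
  have n0 : (0 : ℝ) ≤ n := n.cast_nonneg
  have p : (0 : ℝ) < 4 ^ n := by positivity
  have g1 : (((n : ℝ) + 1) ^ 2 / 2) ^ 2 ≤ (γ n : ℝ) ^ 2 :=
    pow_le_pow_left₀ (by positivity) (by nlinarith) 2
  have g2 : (γ n : ℝ) ^ 2 ≤ (3 * ((n : ℝ) + 1) ^ 2) ^ 2 :=
    pow_le_pow_left₀ (by positivity) (by nlinarith) 2
  unfold a b c
  push_cast
  simp only [mul_pow, e]
  exact ⟨trivial, trivial, by nlinarith, by nlinarith⟩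

lemma one_le (k n : ℕ) : (1 : ℝ) ≤ 4 ^ n * ((n : ℝ) + 1) ^ k :=
  one_le_mul_of_one_le_of_one_le (one_le_pow₀ (by norm_num))
    (one_le_pow₀ (le_add_of_nonneg_left n.cast_nonneg))

lemma den {G : MvPolynomial (Fin 3) ℚ} (hG : G ≠ 0) (m : ℕ) :
    ∃ n ≥ m, eval (fun i => s.U i n) G ≠ 0 := by
  obtain ⟨d, p, q, -, -, h⟩ := s.rs
  have ev : ∀ n (r : MvPolynomial (Fin 4) ℚ), eval (fun i => s.U i n)
      (aeval (![1, .X 0, .X 1, .X 2] : Fin 4 → MvPolynomial (Fin 3) ℚ) r) = eval (s.P n) r :=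
    fun n r => by
      rw [← coe_aeval_eq_eval, ← coe_aeval_eq_eval]
      simp only [RingHom.coe_coe, ← AlgHom.comp_apply, comp_aeval]
      congr 2
      ext i
      fin_cases i <;> simp [P]
  have cube : ∀ {g : ℕ → ℝ}, (Bd g fun n => s.x (a n)) → Bd g fun n => s.x (a n) ^ 3 := fun h => by
    simpa only [pow_succ, pow_zero, one_mul] using (h.mul h).mul h
  have a2 : Bd (fun n => 4 ^ n * ((n : ℝ) + 1) ^ 2) fun n => s.x (a n) :=
    s.bx (C := 1) fun n => by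
      rw [(sqs n).1, one_mul]
      exact le_mul_of_one_le_right (by positivity)
        (one_le_pow₀ (le_add_of_nonneg_left n.cast_nonneg))
  refine dense (g₁ := fun n => 4 ^ n) (g₂ := fun n => 4 ^ n * ((n : ℝ) + 1) ^ 2)
    (fun n => one_le_pow₀ (by norm_num)) (one_le 2) (s := fun n => s.x (a n) ^ 3) (fun C => ?_)
    (cube (s.bx (C := 1) fun n => by rw [(sqs n).1, one_mul])) (fun C => ?_) (cube a2)
    ((s.bx (C := 4) fun n => ?_).mul a2.inv) (fun C => ?_) (fun n => (ev n q).trans_ne (h n).1)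
    (fun n => (congrArg _ (ev n q)).trans ((h n).2.trans (ev n p).symm)) hG m
  · filter_upwards [(tendsto_pow_atTop_atTop_of_one_lt (by norm_num : (1 : ℝ) < 4)).eventually_gt_atTop
      C] with n hn
    have := (s.ht (a n)).1
    rw [(sqs n).1] at this
    rw [logHeight₁_pow]
    have : (0 : ℝ) < 4 ^ n := by positivity
    simp only [Pi.one_apply]
    push_cast
    linarith
  · filter_upwards [(tendsto_natCast_atTop_atTop (R := ℝ)).eventually_gt_atTop (C + |s.B|)] with n hn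
    refine lt_of_lt_of_le ?_ (s.lo (b n) n)
    rw [(sqs n).2.1]
    have : (0 : ℝ) < 4 ^ n := by positivity
    have : C + |s.B| < ((n : ℝ) + 2) ^ 2 / 2 := by nlinarith [sq_nonneg (n : ℝ), n.cast_nonneg (α := ℝ)]
    nlinarith
  · rw [(sqs n).2.1]
    have : (0 : ℝ) < 4 ^ n := by positivity
    have : ((n : ℝ) + 2) ^ 2 ≤ 4 * (n + 1) ^ 2 := by nlinarith [n.cast_nonneg (α := ℝ)]
    nlinarith
  · filter_upwards [(tendsto_natCast_atTop_atTop (R := ℝ)).eventually_gt_atTop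
      (8 * (|C| + |s.B|))] with n hn
    refine lt_of_lt_of_le ?_ (s.lo (c n) n)
    have := (sqs n).2.2.1
    have := one_le 2 n
    have n0 : (0 : ℝ) ≤ n := n.cast_nonneg
    have q : (0 : ℝ) < 4 ^ n := by positivity
    have h1 : (4 : ℝ) ^ n ≤ 4 ^ n * ((n : ℝ) + 1) ^ 2 :=
      le_mul_of_one_le_right q.le (by nlinarith)
    have h2 : 8 * (|C| + |s.B|) < ((n : ℝ) + 1) ^ 2 := by nlinarith
    have h3 := mul_lt_mul_of_pos_left h2 (by positivity : (0 : ℝ) < 4 ^ n * ((n : ℝ) + 1) ^ 2)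
    have h4 := mul_le_mul_of_nonneg_left h1 (abs_nonneg s.B)
    have h5 := mul_le_mul_of_nonneg_right (le_abs_self C)
      (by positivity : (0 : ℝ) ≤ 4 ^ n * ((n : ℝ) + 1) ^ 2)
    nlinarith

lemma growth : ∃ C, 0 < C ∧ ∀ᶠ n : ℕ in atTop, 1 / 16 * (4 ^ n * (n : ℝ) ^ 4) ≤ logHeight (s.P n) ∧
    logHeight (s.P n) ≤ C * (4 ^ n * (n : ℝ) ^ 4) := by
  have p := fun n : ℕ => (by positivity : (0 : ℝ) < 4 ^ n)
  have n0 := fun n : ℕ => n.cast_nonneg (α := ℝ)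
  have xa : Bd (fun n => 4 ^ n * ((n : ℝ) + 1) ^ 4) fun n => s.x (a n) :=
    s.bx (C := 9) fun n => le_trans (by gcongr; exact ((ab n).trans (bc n)).le) (sqs n).2.2.2
  have xb : Bd (fun n => 4 ^ n * ((n : ℝ) + 1) ^ 4) fun n => s.x (b n) :=
    s.bx (C := 9) fun n => le_trans (by gcongr; exact (bc n).le) (sqs n).2.2.2
  have xc : Bd (fun n => 4 ^ n * ((n : ℝ) + 1) ^ 4) fun n => s.x (c n) :=
    s.bx (C := 9) fun n => (sqs n).2.2.2
  have ya := (s.bY (one_le 4) a0 xa).neg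
  obtain ⟨C₁, h₁⟩ := xb.mul xa.inv
  obtain ⟨C₂, h₂⟩ := xc.mul xa.inv
  obtain ⟨C₃, h₃⟩ := ((s.bY (one_le 4) c0 xc).add (one_le 4) ya).mul
    ((s.bY (one_le 4) b0 xb).add (one_le 4) ya).inv
  refine ⟨16 * (|C₁ + C₂ + C₃| + 1), by positivity, ?_⟩
  filter_upwards [(tendsto_natCast_atTop_atTop (R := ℝ)).eventually_ge_atTop (16 * |s.B| + 1)]
    with n hn
  have n1 : (1 : ℝ) ≤ n := by linarith [abs_nonneg s.B]
  constructor
  · have a1 := logHeight_comp_le ![2, 0] (s.P n)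
    have : s.P n ∘ ![2, 0] = ![s.x (c n) / s.x (a n), 1] := by ext i; fin_cases i <;> rfl
    rw [this, ← logHeight₁_eq_logHeight] at a1
    refine le_trans ?_ ((s.lo (c n) n).trans a1)
    have := (sqs n).2.2.1
    have h1 : (n : ℝ) ^ 4 ≤ (n + 1) ^ 4 := by gcongr; linarith
    have h2 : (n : ℝ) ≤ n ^ 4 := le_self_pow₀ n1 (by norm_num)
    nlinarith [mul_le_mul_of_nonneg_left h1 (p n).le, mul_le_mul_of_nonneg_left (hn.trans h2) (p n).le,
      p n]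
  · have e : s.P n = ![s.U 0 n, 1] ∘ ![1, 0, 1, 1] * ![s.U 1 n, 1] ∘ ![1, 1, 0, 1] *
        ![s.U 2 n, 1] ∘ ![1, 1, 1, 0] := by ext i; fin_cases i <;> simp [P]
    have a1 := logHeight_comp_le ![1, 0, 1, 1] ![s.U 0 n, 1]
    have a2 := logHeight_comp_le ![1, 1, 0, 1] ![s.U 1 n, 1]
    have a3 := logHeight_comp_le ![1, 1, 1, 0] ![s.U 2 n, 1]
    rw [← logHeight₁_eq_logHeight] at a1 a2 a3
    have a4 := logHeight_mul_le (![s.U 0 n, 1] ∘ ![1, 0, 1, 1] * ![s.U 1 n, 1] ∘ ![1, 1, 0, 1])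
      (![s.U 2 n, 1] ∘ ![1, 1, 1, 0])
    have a5 := logHeight_mul_le (![s.U 0 n, 1] ∘ ![1, 0, 1, 1]) (![s.U 1 n, 1] ∘ ![1, 1, 0, 1])
    have b1 : logHeight₁ (s.U 0 n) ≤ C₁ * (4 ^ n * ((n : ℝ) + 1) ^ 4) := by
      have := h₁ n
      simp only [← div_eq_mul_inv] at this
      exact this
    have b2 : logHeight₁ (s.U 1 n) ≤ C₂ * (4 ^ n * ((n : ℝ) + 1) ^ 4) := by
      have := h₂ n
      simp only [← div_eq_mul_inv] at this
      exact this
    have b3 : logHeight₁ (s.U 2 n) ≤ C₃ * (4 ^ n * ((n : ℝ) + 1) ^ 4) := by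
      have := h₃ n
      simp only [← sub_eq_add_neg, ← div_eq_mul_inv] at this
      exact this
    rw [← e] at a4
    have h1 : ((n : ℝ) + 1) ^ 4 ≤ (2 * n) ^ 4 := by gcongr; linarith
    have h2 := mul_le_mul (le_abs_self (C₁ + C₂ + C₃)) (mul_le_mul_of_nonneg_left h1 (p n).le)
      (by positivity) (abs_nonneg _)
    have : (0 : ℝ) ≤ 4 ^ n * (n : ℝ) ^ 4 := by positivity
    nlinarith

end Sq

end Pool.Agent.H.MP_a67235_nt
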